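import Mathlib

/-!
# The van der Corput–Kronecker sequence and its discrepancy
-/

namespace MK

open Finset

/-- The van der Corput sequence in base two: `x_n = ∑ a_j 2^(-j-1)`, where `a_j` is the `j`-th
binary digit of `n` (the digits with `j ≥ n` vanish). -/
noncomputable def vdc (n : ℕ) : ℝ := ∑ j ∈ range n, ((n / 2 ^ j % 2 : ℕ) : ℝ) / 2 ^ (j + 1)

/-- The number of `n < N` for which `z_n = (x_n, {n α})` lies in the box `[a, b) × [c, d)`. -/
noncomputable def boxCount (α : ℝ) (N : ℕ) (a b c d : ℝ) : ℕ := by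
  classical
  exact ((range N).filter fun n : ℕ =>
    (a ≤ vdc n ∧ vdc n < b) ∧ c ≤ Int.fract ((n : ℝ) * α) ∧ Int.fract ((n : ℝ) * α) < d).card

/-- The discrepancy `D_N(α)` of the van der Corput–Kronecker sequence. -/
noncomputable def disc (α : ℝ) (N : ℕ) : ℝ :=
  sSup {t : ℝ | ∃ a b c d : ℝ, (0 ≤ a ∧ a ≤ b ∧ b ≤ 1) ∧ (0 ≤ c ∧ c ≤ d ∧ d ≤ 1) ∧
    t = |(boxCount α N a b c d : ℝ) / N - (b - a) * (d - c)|}

theorem le_disc {α : ℝ} {N : ℕ} {a b c d : ℝ} (h1 : 0 ≤ a ∧ a ≤ b ∧ b ≤ 1)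
    (h2 : 0 ≤ c ∧ c ≤ d ∧ d ≤ 1) :
    |(boxCount α N a b c d : ℝ) / N - (b - a) * (d - c)| ≤ disc α N := by
  apply le_csSup
  · refine ⟨1, ?_⟩
    rintro t ⟨a, b, c, d, ⟨p1, p2, p3⟩, ⟨q1, q2, q3⟩, rfl⟩
    have hc : (boxCount α N a b c d : ℝ) / N ≤ 1 := by
      apply div_le_one_of_le₀ _ (Nat.cast_nonneg N)
      unfold boxCount
      have := card_filter_le (range N) (fun n : ℕ =>
        (a ≤ vdc n ∧ vdc n < b) ∧ c ≤ Int.fract ((n : ℝ) * α) ∧ Int.fract ((n : ℝ) * α) < d)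
      rw [card_range] at this
      exact_mod_cast this
    have hc0 : (0 : ℝ) ≤ (boxCount α N a b c d : ℝ) / N := by positivity
    have hv0 : 0 ≤ (b - a) * (d - c) := mul_nonneg (by linarith) (by linarith)
    have hv1 : (b - a) * (d - c) ≤ 1 := by
      have : b - a ≤ 1 := by linarith
      have : d - c ≤ 1 := by linarith
      nlinarith
    rw [abs_le]
    constructor <;> linarith
  · exact ⟨a, b, c, d, h1, h2, rfl⟩

theorem dvd_of_digits {i n : ℕ} (h : ∀ j < i, n / 2 ^ j % 2 = 0) : 2 ^ i ∣ n := by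
  induction i with
  | zero => simp
  | succ i ih =>
    have h1 := ih (fun j hj => h j (by omega))
    obtain ⟨k, rfl⟩ := h1
    have h2 := h i (by omega)
    rw [Nat.mul_div_cancel_left _ (by positivity)] at h2
    obtain ⟨l, rfl⟩ : 2 ∣ k := Nat.dvd_of_mod_eq_zero h2
    exact ⟨l, by ring⟩

theorem dvd_of_vdc_lt {i n : ℕ} (h : vdc n < 1 / 2 ^ i) : 2 ^ i ∣ n := by
  apply dvd_of_digits
  intro j hj
  by_contra hne
  have h1 : n / 2 ^ j % 2 = 1 := by omega
  have hjn : j < n := by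
    have h2 : 2 ^ j ≤ n := by
      by_contra hlt
      rw [Nat.div_eq_of_lt (not_le.mp hlt)] at h1
      omega
    exact lt_of_lt_of_le Nat.lt_two_pow_self h2
  have h3 : ((n / 2 ^ j % 2 : ℕ) : ℝ) / 2 ^ (j + 1) ≤ vdc n := by
    unfold vdc
    exact single_le_sum (f := fun j : ℕ => ((n / 2 ^ j % 2 : ℕ) : ℝ) / 2 ^ (j + 1))
      (fun j _ => by positivity) (mem_range.mpr hjn)
  rw [h1] at h3
  have h4 : (1 : ℝ) / 2 ^ i ≤ 1 / 2 ^ (j + 1) := by
    apply one_div_le_one_div_of_le (by positivity)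
    exact pow_le_pow_right₀ (by norm_num) (by omega)
  push_cast at h3
  linarith

/-- **A large gap in one residue class gives a large discrepancy.** -/
theorem disc_ge {α : ℝ} {i u K : ℕ} {a : ℤ} (hu : 0 < u) (hK : 0 < K)
    (h : 4 * (u : ℝ) * K * |((2 ^ i * u : ℕ) : ℝ) * α - a| < 1) :
    (K : ℝ) / 2 / ((2 ^ i * u * K : ℕ) : ℝ) ≤ disc α (2 ^ i * u * K) := by
  classical
  set N := 2 ^ i * u * K with hN
  have hu' : (0 : ℝ) < u := by exact_mod_cast hu
  have hu1 : (1 : ℝ) ≤ u := by exact_mod_cast hu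
  have hK' : (0 : ℝ) < K := by exact_mod_cast hK
  set θ := ((2 ^ i * u : ℕ) : ℝ) * α - a with hθ
  have hcount : boxCount α N 0 (1 / 2 ^ i) (1 / (4 * u)) (3 / (4 * u)) = 0 := by
    unfold boxCount
    rw [card_eq_zero, filter_eq_empty_iff]
    intro n hn
    rw [mem_range] at hn
    rintro ⟨⟨_, h2⟩, h3, h4⟩
    obtain ⟨m, rfl⟩ := dvd_of_vdc_lt h2
    have hm : m < u * K := by
      rw [hN, mul_assoc] at hn
      exact Nat.lt_of_mul_lt_mul_left hn
    set f := Int.fract (((2 ^ i * m : ℕ) : ℝ) * α) with hf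
    have e1 : ((2 ^ i * m : ℕ) : ℝ) * α = f + ⌊((2 ^ i * m : ℕ) : ℝ) * α⌋ := by
      rw [hf]; exact (Int.fract_add_floor _).symm
    set q := ⌊((2 ^ i * m : ℕ) : ℝ) * α⌋ with hq
    -- `u f = m θ + integer`
    have e2 : (u : ℝ) * f = m * θ + ((m * a - u * q : ℤ) : ℝ) := by
      have : (u : ℝ) * f = u * (((2 ^ i * m : ℕ) : ℝ) * α) - u * q := by
        rw [e1]; ring
      rw [this, hθ]
      push_cast
      ring
    have h5 : 1 / 4 ≤ (u : ℝ) * f := by
      rw [div_le_iff₀ (by positivity)] at h3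
      linarith
    have h6 : (u : ℝ) * f < 3 / 4 := by
      rw [lt_div_iff₀ (by positivity)] at h4
      linarith
    have h7 : |(m : ℝ) * θ| < 1 / 4 := by
      rw [abs_mul, abs_of_nonneg (Nat.cast_nonneg m)]
      have hm' : (m : ℝ) ≤ u * K := by exact_mod_cast hm.le
      have : (m : ℝ) * |θ| ≤ u * K * |θ| := mul_le_mul_of_nonneg_right hm' (abs_nonneg _)
      linarith
    rw [abs_lt] at h7
    rw [e2] at h5 h6
    have h8 : (0 : ℝ) < ((m * a - u * q : ℤ) : ℝ) := by linarith [h7.1, h7.2]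
    have h9 : ((m * a - u * q : ℤ) : ℝ) < 1 := by linarith [h7.1, h7.2]
    have h10 : (0 : ℤ) < m * a - u * q := by exact_mod_cast h8
    have h11 : (m * a - u * q : ℤ) < 1 := by exact_mod_cast h9
    omega
  have hle := le_disc (α := α) (N := N) (a := 0) (b := 1 / 2 ^ i) (c := 1 / (4 * u)) (d := 3 / (4 * u))
    ⟨le_rfl, by positivity, by
      rw [div_le_one (by positivity)]
      exact one_le_pow₀ (by norm_num)⟩
    ⟨by positivity, by
      apply div_le_div_of_nonneg_right _ (by positivity)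
      norm_num, by
      rw [div_le_one (by positivity)]
      linarith⟩
  rw [hcount] at hle
  refine le_trans (le_of_eq ?_) hle
  have e : (1 : ℝ) / 2 ^ i * (3 / (4 * u) - 1 / (4 * u)) = (K : ℝ) / 2 / (N : ℝ) := by
    rw [hN]
    push_cast
    field_simp
    ring
  rw [Nat.cast_zero, zero_div, zero_sub, abs_neg, sub_zero, e, abs_of_nonneg]
  positivity

end MK
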