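import Pool.Agent.Q71.MK.Metric
import Pool.Agent.Q71.MK.Disc

/-!
# The metric lower bound
-/

namespace MK

open Finset Filter Topology

/-- The number of blocks. -/
noncomputable def KK (h : ℝ → ℝ) (i : ℕ) : ℕ := ⌈18 * (i : ℝ) ^ 2 * h (3 * i)⌉₊ + 1

/-- The good exponents. -/
def GG (h : ℝ → ℝ) (i : ℕ) : Prop := 1 ≤ i ∧ h (3 * i) ≤ i ∧ KK h i ≤ 5 ^ i

theorem KK_pos (h : ℝ → ℝ) (i : ℕ) : 1 ≤ KK h i := by
  unfold KK; omega

theorem KK_ge (h : ℝ → ℝ) (i : ℕ) : 18 * (i : ℝ) ^ 2 * h (3 * i) ≤ KK h i := by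
  unfold KK
  push_cast
  linarith [Nat.le_ceil (18 * (i : ℝ) ^ 2 * h (3 * i))]

theorem KK_le {h : ℝ → ℝ} (hpos : ∀ x, 0 < h x) (i : ℕ) :
    (KK h i : ℝ) ≤ 18 * (i : ℝ) ^ 2 * h (3 * i) + 2 := by
  unfold KK
  push_cast
  have := Nat.ceil_lt_add_one (a := 18 * (i : ℝ) ^ 2 * h (3 * i))
    (by have := hpos (3 * i); positivity)
  linarith

theorem poly_le (i : ℕ) (hi : 5 ≤ i) : 18 * i ^ 3 + 2 ≤ 5 ^ i := by
  induction i, hi using Nat.le_induction with
  | base => norm_num
  | succ i hi ih =>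
    rw [pow_succ 5]
    have : 18 * (i + 1) ^ 3 + 2 ≤ 5 * (18 * i ^ 3 + 2) := by nlinarith [pow_pos (by omega : 0 < i) 2]
    omega

theorem GG_of {h : ℝ → ℝ} (hpos : ∀ x, 0 < h x) {i : ℕ} (hi : 5 ≤ i) (hh : h (3 * i) ≤ i) :
    GG h i := by
  refine ⟨by omega, hh, ?_⟩
  have h1 := KK_le hpos i
  have h2 : 18 * (i : ℝ) ^ 2 * h (3 * i) ≤ 18 * (i : ℝ) ^ 3 := by
    have : 18 * (i : ℝ) ^ 2 * h (3 * i) ≤ 18 * (i : ℝ) ^ 2 * i :=
      mul_le_mul_of_nonneg_left hh (by positivity)
    linarith [this, (by ring : 18 * (i : ℝ) ^ 2 * i = 18 * (i : ℝ) ^ 3)]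
  have h3 : (KK h i : ℝ) ≤ ((18 * i ^ 3 + 2 : ℕ) : ℝ) := by push_cast; linarith
  have h4 : KK h i ≤ 18 * i ^ 3 + 2 := by exact_mod_cast h3
  exact h4.trans (poly_le i hi)

/-- The series along the multiples of three diverges. -/
theorem not_summable_three {h : ℝ → ℝ} (hmono : Monotone h) (hpos : ∀ x, 0 < h x)
    (hdiv : ¬ Summable fun k : ℕ => 1 / ((k : ℝ) * h k)) :
    ¬ Summable fun i : ℕ => 1 / ((i : ℝ) * h (3 * i)) := by
  intro hs
  apply hdiv
  set f : ℕ → ℝ := fun k => 1 / ((k : ℝ) * h k) with hf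
  set g : ℕ → ℝ := fun i => 1 / ((i : ℝ) * h (3 * i)) with hg
  have hf0 : ∀ k, 0 ≤ f k := fun k => by
    have := hpos k
    simp only [hf]
    positivity
  have hg0 : ∀ k, 0 ≤ g k := fun k => by
    have := hpos (3 * k)
    simp only [hg]
    positivity
  have hstep : ∀ i : ℕ, 1 ≤ i → ∀ r : ℕ, f (3 * i + r) ≤ g i / 3 := by
    intro i hi r
    have hi' : (1 : ℝ) ≤ i := by exact_mod_cast hi
    have h1 : h (3 * i) ≤ h ((3 * i + r : ℕ) : ℝ) := by
      apply hmono
      push_cast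
      have : (0 : ℝ) ≤ r := Nat.cast_nonneg r
      linarith
    have h2 := hpos (3 * i)
    have e : g i / 3 = 1 / (3 * (i : ℝ) * h (3 * i)) := by
      simp only [hg]
      field_simp
    rw [e]
    simp only [hf]
    apply one_div_le_one_div_of_le
    · positivity
    · push_cast at h1 ⊢
      have : (0 : ℝ) ≤ r := Nat.cast_nonneg r
      apply mul_le_mul
      · linarith
      · exact h1
      · exact h2.le
      · positivity
  have hpart : ∀ n : ℕ, ∑ k ∈ range (3 * n + 3), f k ≤ (f 0 + f 1 + f 2) + ∑ i ∈ range (n + 1), g i := by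
    intro n
    induction n with
    | zero =>
      simp only [mul_zero, zero_add, sum_range_succ, sum_range_zero]
      have := hg0 0
      linarith
    | succ n ih =>
      have e : 3 * (n + 1) + 3 = (3 * n + 3) + 1 + 1 + 1 := by ring
      rw [e, sum_range_succ, sum_range_succ, sum_range_succ, sum_range_succ (f := g)]
      have a0 := hstep (n + 1) (by omega) 0
      have a1 := hstep (n + 1) (by omega) 1
      have a2 := hstep (n + 1) (by omega) 2
      have b0 : 3 * n + 3 = 3 * (n + 1) + 0 := by ring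
      have b1 : 3 * n + 3 + 1 = 3 * (n + 1) + 1 := by ring
      have b2 : 3 * n + 3 + 1 + 1 = 3 * (n + 1) + 2 := by ring
      rw [← b0] at a0
      rw [← b1] at a1
      rw [← b2] at a2
      linarith
  apply summable_of_sum_range_le (c := (f 0 + f 1 + f 2) + ∑' i, g i) hf0
  intro n
  have h1 : ∑ k ∈ range n, f k ≤ ∑ k ∈ range (3 * n + 3), f k :=
    sum_le_sum_of_subset_of_nonneg (range_mono (by omega)) (fun k _ _ => hf0 k)
  have h2 : ∑ i ∈ range (n + 1), g i ≤ ∑' i, g i := hs.sum_le_tsum _ (fun i _ => hg0 i)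
  linarith [hpart n]

/-- The divergence needed for the metric theorem. -/
theorem divergence {h : ℝ → ℝ} (hmono : Monotone h) (hpos : ∀ x, 0 < h x)
    (hdiv : ¬ Summable fun k : ℕ => 1 / ((k : ℝ) * h k)) (T : ℕ) :
    ∃ F : Finset ℕ, (∀ i ∈ F, T ≤ i ∧ GG h i) ∧ 32 ≤ ∑ i ∈ F, (i : ℝ) / KK h i := by
  classical
  set φ : ℕ → ℝ := fun i => if GG h i then (i : ℝ) / KK h i else 0 with hφ
  have hφ0 : ∀ i, 0 ≤ φ i := by
    intro i
    simp only [hφ]
    split_ifs
    · positivity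
    · exact le_rfl
  have hns : ¬ Summable φ := by
    intro hs
    apply not_summable_three hmono hpos hdiv
    set C := 18 + 2 / h 3 with hC
    have h3 := hpos 3
    have hC0 : 0 < C := by positivity
    have hsq : Summable fun i : ℕ => (1 : ℝ) / (i : ℝ) ^ 2 :=
      Real.summable_one_div_nat_pow.mpr (by norm_num)
    have hsum : Summable fun i : ℕ => C * φ i + 1 / (i : ℝ) ^ 2 := (hs.mul_left C).add hsq
    rw [← summable_nat_add_iff 5] at hsum ⊢
    apply Summable.of_nonneg_of_le _ _ hsum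
    · intro i
      have := hpos (3 * ((i + 5 : ℕ) : ℝ))
      positivity
    · intro i
      set j := i + 5 with hj
      have hj5 : 5 ≤ j := by omega
      have hj0 : (0 : ℝ) < j := by
        have : 0 < j := by omega
        exact_mod_cast this
      have hj1 : (1 : ℝ) ≤ j := by
        have : 1 ≤ j := by omega
        exact_mod_cast this
      have hhj := hpos (3 * (j : ℝ))
      by_cases hh : h (3 * j) ≤ j
      · have hG := GG_of hpos hj5 hh
        have e : φ j = (j : ℝ) / KK h j := by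
          simp only [hφ]
          rw [if_pos hG]
        rw [e]
        have hK0 : (0 : ℝ) < KK h j := by exact_mod_cast KK_pos h j
        have h33 : h 3 ≤ h (3 * j) := hmono (by linarith)
        have hKC : (KK h j : ℝ) ≤ C * ((j : ℝ) ^ 2 * h (3 * j)) := by
          have a1 := KK_le hpos j
          have a2 : (1 : ℝ) ≤ (j : ℝ) ^ 2 := one_le_pow₀ hj1
          have a3 : h 3 ≤ (j : ℝ) ^ 2 * h (3 * j) := by nlinarith
          have a4 : 2 ≤ 2 / h 3 * ((j : ℝ) ^ 2 * h (3 * j)) := by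
            have : 2 / h 3 * h 3 ≤ 2 / h 3 * ((j : ℝ) ^ 2 * h (3 * j)) :=
              mul_le_mul_of_nonneg_left a3 (by positivity)
            rw [div_mul_cancel₀ _ h3.ne'] at this
            exact this
          rw [hC]
          nlinarith
        have h4 : 1 / ((j : ℝ) * h (3 * j)) ≤ C * ((j : ℝ) / KK h j) := by
          rw [← mul_div_assoc, div_le_div_iff₀ (by positivity) hK0]
          nlinarith
        have h5 : (0 : ℝ) ≤ 1 / (j : ℝ) ^ 2 := by positivity
        linarith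
      · have h4 : 1 / ((j : ℝ) * h (3 * j)) ≤ 1 / (j : ℝ) ^ 2 := by
          apply one_div_le_one_div_of_le (by positivity)
          have := not_le.mp hh
          nlinarith
        have h5 : 0 ≤ C * φ j := mul_nonneg hC0.le (hφ0 j)
        linarith
  have htend := (not_summable_iff_tendsto_nat_atTop_of_nonneg hφ0).mp hns
  obtain ⟨n, hn1, hn2⟩ := ((htend.eventually_ge_atTop (32 + ∑ i ∈ range T, φ i)).and
    (eventually_ge_atTop T)).exists
  refine ⟨(Ico T n).filter (fun i => GG h i), ?_, ?_⟩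
  · intro i hi
    rw [mem_filter, mem_Ico] at hi
    exact ⟨hi.1.1, hi.2⟩
  · have e : ∑ i ∈ (Ico T n).filter (fun i => GG h i), (i : ℝ) / KK h i = ∑ i ∈ Ico T n, φ i := by
      rw [sum_filter]
    rw [e]
    have := sum_range_add_sum_Ico φ hn2
    linarith

/-- **The metric lower bound.** -/
theorem main {h : ℝ → ℝ} (hmono : Monotone h) (hpos : ∀ x, 0 < h x)
    (hdiv : ¬ Summable fun k : ℕ => 1 / ((k : ℝ) * h k)) :
    ∀ᵐ α : ℝ, ∀ N₀ : ℕ, ∃ N : ℕ, N₀ ≤ N ∧
      Real.log N ^ 2 * h (Real.log N) / N ≤ disc α N := by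
  filter_upwards [ae_real (KK_pos h) (divergence hmono hpos hdiv)] with α hα N₀
  obtain ⟨i, u, a, hT, ⟨hi1, hi2, hi3⟩, hu, hu2, hlt⟩ := hα N₀
  have hKpos : 0 < KK h i := KK_pos h i
  refine ⟨2 ^ i * u * KK h i, ?_, ?_⟩
  · calc N₀ ≤ i := hT
      _ ≤ 2 ^ i := Nat.lt_two_pow_self.le
      _ ≤ 2 ^ i * (u * KK h i) := Nat.le_mul_of_pos_right _ (by positivity)
      _ = 2 ^ i * u * KK h i := by ring
  · refine le_trans ?_ (disc_ge hu hKpos hlt)
    set N := 2 ^ i * u * KK h i with hN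
    have hNpos : 0 < N := by positivity
    have hNr : (0 : ℝ) < N := by exact_mod_cast hNpos
    have hN20 : N ≤ 20 ^ i := by
      calc N ≤ 2 ^ i * 2 ^ i * 5 ^ i := by
            rw [hN]
            gcongr
        _ = 20 ^ i := by rw [← mul_pow, ← mul_pow]; norm_num
    have hlog : Real.log N ≤ 3 * i := by
      have h1 : (N : ℝ) ≤ (20 : ℝ) ^ i := by exact_mod_cast hN20
      have h2 : (20 : ℝ) ^ i ≤ Real.exp (3 * i) := by
        have e1 : Real.exp (3 * i) = (Real.exp 3) ^ i := by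
          rw [← Real.exp_nat_mul]; ring_nf
        rw [e1]
        apply pow_le_pow_left₀ (by norm_num)
        have e2 : Real.exp 3 = Real.exp 1 ^ 3 := by
          rw [← Real.exp_nat_mul]; norm_num
        rw [e2]
        have := Real.exp_one_gt_d9
        calc (20 : ℝ) ≤ 2.7182818283 ^ 3 := by norm_num
          _ ≤ Real.exp 1 ^ 3 := by gcongr
      rw [← Real.log_exp (3 * i)]
      exact Real.log_le_log hNr (h1.trans h2)
    have hlog0 : 0 ≤ Real.log N := Real.log_natCast_nonneg N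
    have hsq : Real.log N ^ 2 ≤ 9 * (i : ℝ) ^ 2 := by nlinarith
    have hhl : h (Real.log N) ≤ h (3 * i) := hmono hlog
    have hprod : Real.log N ^ 2 * h (Real.log N) ≤ 9 * (i : ℝ) ^ 2 * h (3 * i) :=
      mul_le_mul hsq hhl (hpos _).le (by positivity)
    have hKge := KK_ge h i
    apply div_le_div_of_nonneg_right _ hNr.le
    linarith

end MK
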