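import Mathlib

/-!
# Sums over odd numbers
-/

namespace MK

open Finset

/-- The odd numbers below `U`. -/
def odds (U : ℕ) : Finset ℕ := (range U).filter (fun u => u % 2 = 1)

theorem mem_odds {U u : ℕ} : u ∈ odds U ↔ u < U ∧ u % 2 = 1 := by
  simp [odds]

theorem sum_inv_sq (U : ℕ) :
    ∑ d ∈ (odds U).filter (fun d => 3 ≤ d), (1 : ℝ) / (d : ℝ) ^ 2 ≤ 1 / 4 := by
  have h1 : ∑ d ∈ (odds U).filter (fun d => 3 ≤ d), (1 : ℝ) / (d : ℝ) ^ 2 ≤
      ∑ j ∈ range U, (1 : ℝ) / 4 * (1 / ((j : ℝ) + 1) - 1 / ((j + 1 : ℕ) + 1 : ℝ)) := by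
    have e : ∑ d ∈ (odds U).filter (fun d => 3 ≤ d), (1 : ℝ) / (d : ℝ) ^ 2 ≤
        ∑ d ∈ (odds U).filter (fun d => 3 ≤ d),
          (1 : ℝ) / 4 * (1 / (((d / 2 - 1 : ℕ) : ℝ) + 1) - 1 / ((((d / 2 - 1 : ℕ) + 1 : ℕ) : ℝ) + 1)) := by
      apply sum_le_sum
      intro d hd
      rw [mem_filter, mem_odds] at hd
      obtain ⟨⟨h1, h2⟩, h3⟩ := hd
      obtain ⟨k, rfl⟩ : ∃ k, d = 2 * (k + 1) + 1 := ⟨d / 2 - 1, by omega⟩
      have hk : (2 * (k + 1) + 1) / 2 - 1 = k := by omega
      rw [hk]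
      push_cast
      have hk0 : (0 : ℝ) ≤ k := Nat.cast_nonneg k
      have e1 : (1 : ℝ) / 4 * (1 / ((k : ℝ) + 1) - 1 / ((k : ℝ) + 1 + 1)) =
          1 / (4 * ((k + 1) * (k + 2))) := by
        field_simp
        ring
      rw [e1]
      apply one_div_le_one_div_of_le
      · positivity
      · nlinarith
    refine e.trans ?_
    rw [← sum_image (f := fun j : ℕ => (1 : ℝ) / 4 * (1 / ((j : ℝ) + 1) - 1 / ((j + 1 : ℕ) + 1 : ℝ)))
      (g := fun d : ℕ => d / 2 - 1)]
    · apply sum_le_sum_of_subset_of_nonneg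
      · intro j hj
        rw [mem_image] at hj
        obtain ⟨d, hd, rfl⟩ := hj
        rw [mem_filter, mem_odds] at hd
        rw [mem_range]
        omega
      · intro j _ _
        have hk0 : (0 : ℝ) ≤ j := Nat.cast_nonneg j
        have : (1 : ℝ) / ((j + 1 : ℕ) + 1 : ℝ) ≤ 1 / ((j : ℝ) + 1) := by
          apply one_div_le_one_div_of_le
          · positivity
          · push_cast; linarith
        linarith
    · intro a ha b hb hab
      rw [mem_coe, mem_filter, mem_odds] at ha hb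
      simp only at hab
      omega
  refine h1.trans ?_
  rw [← mul_sum, sum_range_sub']
  have : (0 : ℝ) ≤ 1 / ((U : ℝ) + 1) := by positivity
  simp only [Nat.cast_zero, zero_add]
  norm_num
  linarith [this, (by simp : (1 : ℝ) / ((U : ℝ) + 1) = ((U : ℝ) + 1)⁻¹)]

theorem totient_ge {u : ℕ} (hu : 0 < u) :
    (1 : ℝ) / u - ∑ m ∈ u.properDivisors, (m : ℝ) / (u : ℝ) ^ 2 ≤ (u.totient : ℝ) / (u : ℝ) ^ 2 := by
  have h1 : (u : ℝ) = ∑ m ∈ u.properDivisors, (m.totient : ℝ) + u.totient := by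
    have := Nat.sum_totient u
    rw [← Nat.cons_self_properDivisors hu.ne', sum_cons] at this
    have h2 : ((u.totient + ∑ m ∈ u.properDivisors, m.totient : ℕ) : ℝ) = u := by
      exact_mod_cast this
    push_cast at h2
    linarith
  have h2 : ∑ m ∈ u.properDivisors, (m.totient : ℝ) ≤ ∑ m ∈ u.properDivisors, (m : ℝ) :=
    sum_le_sum fun m _ => by exact_mod_cast Nat.totient_le m
  have hu0 : (0 : ℝ) < u := by exact_mod_cast hu
  rw [← sum_div]
  have e : (1 : ℝ) / u = u / (u : ℝ) ^ 2 := by field_simp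
  rw [e, ← sub_div]
  apply div_le_div_of_nonneg_right _ (by positivity)
  linarith

theorem totient_sum (U : ℕ) :
    (3 / 4 : ℝ) * ∑ u ∈ odds U, (1 : ℝ) / u ≤ ∑ u ∈ odds U, (u.totient : ℝ) / (u : ℝ) ^ 2 := by
  classical
  have h1 : ∑ u ∈ odds U, ((1 : ℝ) / u - ∑ m ∈ u.properDivisors, (m : ℝ) / (u : ℝ) ^ 2) ≤
      ∑ u ∈ odds U, (u.totient : ℝ) / (u : ℝ) ^ 2 := by
    apply sum_le_sum
    intro u hu
    rw [mem_odds] at hu
    exact totient_ge (by omega)
  refine le_trans ?_ h1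
  rw [sum_sub_distrib]
  have h2 : ∑ u ∈ odds U, ∑ m ∈ u.properDivisors, (m : ℝ) / (u : ℝ) ^ 2 ≤
      ∑ q ∈ (odds U) ×ˢ ((odds U).filter (fun d => 3 ≤ d)), (1 : ℝ) / q.1 * (1 / (q.2 : ℝ) ^ 2) := by
    rw [sum_sigma']
    have e : ∑ x ∈ (odds U).sigma (fun u => u.properDivisors), ((x.2 : ℝ) / (x.1 : ℝ) ^ 2) =
        ∑ x ∈ (odds U).sigma (fun u => u.properDivisors),
          (fun q : ℕ × ℕ => (1 : ℝ) / q.1 * (1 / (q.2 : ℝ) ^ 2)) (x.2, x.1 / x.2) := by
      apply sum_congr rfl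
      rintro ⟨u, m⟩ hx
      rw [mem_sigma, mem_odds, Nat.mem_properDivisors] at hx
      obtain ⟨⟨_, h2⟩, ⟨d, hd⟩, h4⟩ := hx
      simp only at h2 hd h4 ⊢
      have hm : 0 < m := by
        rcases Nat.eq_zero_or_pos m with h | h
        · subst h; omega
        · exact h
      have hd0 : 0 < d := by
        rcases Nat.eq_zero_or_pos d with h | h
        · subst h; omega
        · exact h
      have hm' : (0 : ℝ) < m := by exact_mod_cast hm
      have hd' : (0 : ℝ) < d := by exact_mod_cast hd0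
      rw [hd, Nat.mul_div_cancel_left _ hm]
      push_cast
      field_simp
    rw [e, ← sum_image (f := fun q : ℕ × ℕ => (1 : ℝ) / q.1 * (1 / (q.2 : ℝ) ^ 2))
      (g := fun x : (_ : ℕ) × ℕ => (x.2, x.1 / x.2))]
    · apply sum_le_sum_of_subset_of_nonneg
      · intro q hq
        rw [mem_image] at hq
        obtain ⟨⟨u, m⟩, hx, rfl⟩ := hq
        rw [mem_sigma, mem_odds, Nat.mem_properDivisors] at hx
        obtain ⟨⟨h1, h2⟩, ⟨d, hd⟩, h4⟩ := hx
        simp only at h1 h2 hd h4 ⊢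
        have hm : 0 < m := by
          rcases Nat.eq_zero_or_pos m with h | h
          · subst h; omega
          · exact h
        rw [mem_product, mem_filter, mem_odds, mem_odds]
        have e1 : u / m = d := by rw [hd, Nat.mul_div_cancel_left _ hm]
        simp only [e1]
        have hmo : m % 2 = 1 := by
          by_contra h
          have : m % 2 = 0 := by omega
          have : u % 2 = 0 := by rw [hd, Nat.mul_mod, this]; simp
          omega
        have hdo : d % 2 = 1 := by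
          by_contra h
          have : d % 2 = 0 := by omega
          have : u % 2 = 0 := by rw [hd, Nat.mul_mod, this]; simp
          omega
        have hd1 : d ≠ 1 := by
          rintro rfl
          omega
        have hdu : d ≤ u := by
          rw [hd]
          exact Nat.le_mul_of_pos_left _ hm
        refine ⟨⟨by omega, hmo⟩, ⟨by omega, hdo⟩, by omega⟩
      · intro q _ _
        positivity
    · rintro ⟨u, m⟩ hx ⟨u', m'⟩ hx' heq
      rw [mem_coe, mem_sigma, mem_odds, Nat.mem_properDivisors] at hx hx'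
      simp only [Prod.mk.injEq] at heq
      obtain ⟨h1, h2⟩ := heq
      simp only at hx hx'
      subst h1
      have e1 := Nat.div_mul_cancel hx.2.1
      have e2 := Nat.div_mul_cancel hx'.2.1
      rw [h2, e2] at e1
      subst e1
      rfl
  have h3 : ∑ q ∈ (odds U) ×ˢ ((odds U).filter (fun d => 3 ≤ d)), (1 : ℝ) / q.1 * (1 / (q.2 : ℝ) ^ 2)
      = (∑ u ∈ odds U, (1 : ℝ) / u) * ∑ d ∈ (odds U).filter (fun d => 3 ≤ d), (1 : ℝ) / (d : ℝ) ^ 2 := by
    rw [sum_mul_sum, sum_product]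
  have h4 : (0 : ℝ) ≤ ∑ u ∈ odds U, (1 : ℝ) / u := sum_nonneg fun u _ => by positivity
  have h5 := mul_le_mul_of_nonneg_left (sum_inv_sq U) h4
  linarith

theorem harm_ge (i : ℕ) : (i : ℝ) / 4 ≤ ∑ u ∈ odds (2 ^ i), (1 : ℝ) / u := by
  induction i with
  | zero =>
    simp only [Nat.cast_zero, zero_div]
    exact sum_nonneg fun u _ => by positivity
  | succ i ih =>
    have hsplit : ∑ u ∈ odds (2 ^ i), (1 : ℝ) / u + ∑ u ∈ (odds (2 ^ (i + 1))).filter (fun u => 2 ^ i ≤ u),
        (1 : ℝ) / u = ∑ u ∈ odds (2 ^ (i + 1)), (1 : ℝ) / u := by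
      rw [← sum_filter_add_sum_filter_not (odds (2 ^ (i + 1))) (fun u => 2 ^ i ≤ u), add_comm]
      congr 1
      apply sum_congr _ (fun _ _ => rfl)
      ext u
      rw [mem_filter, mem_odds, mem_odds, pow_succ]
      constructor
      · rintro ⟨h1, h2⟩
        exact ⟨⟨by omega, h2⟩, by omega⟩
      · rintro ⟨⟨h1, h2⟩, h3⟩
        exact ⟨by omega, h2⟩
    rw [← hsplit]
    have hnew : (1 : ℝ) / 4 ≤ ∑ u ∈ (odds (2 ^ (i + 1))).filter (fun u => 2 ^ i ≤ u), (1 : ℝ) / u := by
      rcases Nat.eq_zero_or_pos i with h0 | h0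
      · subst h0
        have : (1 : ℕ) ∈ (odds (2 ^ (0 + 1))).filter (fun u => 2 ^ 0 ≤ u) := by
          rw [mem_filter, mem_odds]; norm_num
        refine le_trans ?_ (single_le_sum (f := fun u : ℕ => (1 : ℝ) / u) (fun u _ => by positivity) this)
        norm_num
      · obtain ⟨k, rfl⟩ : ∃ k, i = k + 1 := ⟨i - 1, by omega⟩
        have hsub : (range (2 ^ k)).image (fun j => 2 ^ (k + 1) + (2 * j + 1)) ⊆
            (odds (2 ^ (k + 1 + 1))).filter (fun u => 2 ^ (k + 1) ≤ u) := by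
          intro u hu
          rw [mem_image] at hu
          obtain ⟨j, hj, rfl⟩ := hu
          rw [mem_range] at hj
          rw [mem_filter, mem_odds]
          have e1 : 2 ^ (k + 1) = 2 * 2 ^ k := by ring
          have e2 : 2 ^ (k + 1 + 1) = 4 * 2 ^ k := by ring
          rw [e1, e2]
          omega
        refine le_trans ?_ (sum_le_sum_of_subset_of_nonneg hsub (fun u _ _ => by positivity))
        rw [sum_image (fun a _ b _ h => by omega)]
        have : ∀ j ∈ range (2 ^ k), (1 : ℝ) / (4 * 2 ^ k) ≤ 1 / ((2 ^ (k + 1) + (2 * j + 1) : ℕ) : ℝ) := by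
          intro j hj
          rw [mem_range] at hj
          apply one_div_le_one_div_of_le
          · positivity
          · have e1 : 2 ^ (k + 1) = 2 * 2 ^ k := by ring
            have : 2 ^ (k + 1) + (2 * j + 1) ≤ 4 * 2 ^ k := by rw [e1]; omega
            exact_mod_cast this
        refine le_trans ?_ (sum_le_sum this)
        rw [sum_const, card_range, nsmul_eq_mul]
        push_cast
        apply le_of_eq
        have : (2 : ℝ) ^ k ≠ 0 := by positivity
        field_simp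
    push_cast
    linarith

end MK
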