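import Pool.Agent.Q71.MK.Second
import Pool.Agent.Q71.MK.Weights

/-!
# The divergence theorem for numbers `2^i u` with `u` odd and less than `2^i`
-/

namespace MK

open Finset MeasureTheory Metric Filter Topology

/-- The exponent of two. -/
def vv (n : ℕ) : ℕ := padicValNat 2 n

/-- The odd part. -/
def uu (n : ℕ) : ℕ := n / 2 ^ vv n

theorem vv_mul {i u : ℕ} (hu : u % 2 = 1) : vv (2 ^ i * u) = i := by
  unfold vv
  have hu0 : u ≠ 0 := by omega
  have h2 : ¬ 2 ∣ u := by omega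
  rw [padicValNat.mul (by positivity) hu0, padicValNat.prime_pow, padicValNat.eq_zero_of_not_dvd h2,
    add_zero]

theorem uu_mul {i u : ℕ} (hu : u % 2 = 1) : uu (2 ^ i * u) = u := by
  unfold uu
  rw [vv_mul hu, Nat.mul_div_cancel_left _ (by positivity)]

theorem pow_vv_mul_uu (n : ℕ) : 2 ^ vv n * uu n = n := by
  unfold uu vv
  exact Nat.mul_div_cancel' pow_padicValNat_dvd

open Classical in
/-- The distances: `1 / (4 n u K_i)` for `n = 2^i u`, `u` odd less than `2^i`, `i` good. -/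
noncomputable def dl (G : ℕ → Prop) (K : ℕ → ℕ) (n : ℕ) : ℝ :=
  if 0 < n ∧ uu n < 2 ^ vv n ∧ G (vv n) then 1 / (4 * (n : ℝ) * (uu n : ℝ) * (K (vv n) : ℝ)) else 0

theorem uu_pos {n : ℕ} (hn : 0 < n) : 0 < uu n := by
  have := pow_vv_mul_uu n
  rcases Nat.eq_zero_or_pos (uu n) with h | h
  · rw [h, mul_zero] at this; omega
  · exact h

theorem dl_nonneg (G : ℕ → Prop) (K : ℕ → ℕ) (n : ℕ) : 0 ≤ dl G K n := by
  unfold dl
  split_ifs
  · positivity
  · exact le_rfl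

theorem dl_le {G : ℕ → Prop} {K : ℕ → ℕ} (hK : ∀ i, 1 ≤ K i) {n : ℕ} (hn : 0 < n) :
    dl G K n ≤ 1 / n := by
  unfold dl
  have hn' : (0 : ℝ) < n := by exact_mod_cast hn
  split_ifs with h
  · apply one_div_le_one_div_of_le hn'
    have h1 : (1 : ℝ) ≤ uu n := by exact_mod_cast uu_pos hn
    have h2 : (1 : ℝ) ≤ K (vv n) := by exact_mod_cast hK _
    have h3 : (1 : ℝ) ≤ (uu n : ℝ) * K (vv n) := by nlinarith
    nlinarith
  · positivity

theorem dl_tendsto {G : ℕ → Prop} {K : ℕ → ℕ} (hK : ∀ i, 1 ≤ K i) :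
    Tendsto (dl G K) atTop (𝓝 0) := by
  apply squeeze_zero' (Eventually.of_forall fun n => dl_nonneg G K n)
    ((eventually_gt_atTop 0).mono fun n hn => dl_le hK hn)
  exact tendsto_one_div_atTop_nhds_zero_nat

/-- The denominators `2^i u`. -/
def den (F : Finset ℕ) : Finset ℕ := (F.sigma fun i => odds (2 ^ i)).image fun x => 2 ^ x.1 * x.2

theorem sum_den (F : Finset ℕ) (f : ℕ → ℝ) :
    ∑ n ∈ den F, f n = ∑ i ∈ F, ∑ u ∈ odds (2 ^ i), f (2 ^ i * u) := by
  unfold den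
  rw [sum_image, sum_sigma]
  rintro ⟨i, u⟩ h ⟨j, v⟩ h' heq
  rw [mem_coe, mem_sigma, mem_odds] at h h'
  simp only at h h' heq
  have e1 : i = j := by rw [← vv_mul (i := i) h.2.2, heq, vv_mul h'.2.2]
  subst e1
  have e2 : u = v := by
    have := uu_mul (i := i) h.2.2
    rw [heq, uu_mul h'.2.2] at this
    exact this.symm
  rw [e2]

theorem den_pos {F : Finset ℕ} {n : ℕ} (hn : n ∈ den F) : 0 < n := by
  unfold den at hn
  rw [mem_image] at hn
  obtain ⟨⟨i, u⟩, h, rfl⟩ := hn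
  rw [mem_sigma, mem_odds] at h
  simp only at h ⊢
  have : 0 < u := by omega
  positivity

theorem dl_den {G : ℕ → Prop} {K : ℕ → ℕ} {i u : ℕ} (hG : G i) (hu : u ∈ odds (2 ^ i)) :
    dl G K (2 ^ i * u) = 1 / (4 * ((2 ^ i * u : ℕ) : ℝ) * (u : ℝ) * (K i : ℝ)) := by
  rw [mem_odds] at hu
  unfold dl
  rw [vv_mul hu.2, uu_mul hu.2, if_pos]
  have : 0 < u := by omega
  exact ⟨by positivity, hu.1, hG⟩

theorem weight_den {G : ℕ → Prop} {K : ℕ → ℕ} (hK : ∀ i, 1 ≤ K i) {F : Finset ℕ}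
    (hF : ∀ i ∈ F, G i) :
    ∑ n ∈ den F, (n : ℝ) * (dl G K n / 2) =
      ∑ i ∈ F, 1 / (8 * (K i : ℝ)) * ∑ u ∈ odds (2 ^ i), (1 : ℝ) / u := by
  rw [sum_den F (fun n => (n : ℝ) * (dl G K n / 2))]
  apply sum_congr rfl
  intro i hi
  rw [mul_sum]
  apply sum_congr rfl
  intro u hu
  rw [dl_den (hF i hi) hu]
  rw [mem_odds] at hu
  have hu0 : (u : ℝ) ≠ 0 := by
    have : u ≠ 0 := by omega
    exact_mod_cast this
  have hK0 : (K i : ℝ) ≠ 0 := by
    have := hK i
    have : K i ≠ 0 := by omega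
    exact_mod_cast this
  push_cast
  field_simp
  ring

theorem totient_den {G : ℕ → Prop} {K : ℕ → ℕ} (hK : ∀ i, 1 ≤ K i) {F : Finset ℕ}
    (hF : ∀ i ∈ F, 1 ≤ i ∧ G i) :
    ∑ n ∈ den F, 2 * (n.totient : ℝ) * (dl G K n / 2) =
      ∑ i ∈ F, 1 / (8 * (K i : ℝ)) * ∑ u ∈ odds (2 ^ i), (u.totient : ℝ) / (u : ℝ) ^ 2 := by
  rw [sum_den F (fun n => 2 * (n.totient : ℝ) * (dl G K n / 2))]
  apply sum_congr rfl
  intro i hi
  rw [mul_sum]
  apply sum_congr rfl
  intro u hu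
  rw [dl_den (hF i hi).2 hu]
  rw [mem_odds] at hu
  have hu0 : (u : ℝ) ≠ 0 := by
    have : u ≠ 0 := by omega
    exact_mod_cast this
  have hK0 : (K i : ℝ) ≠ 0 := by
    have := hK i
    have : K i ≠ 0 := by omega
    exact_mod_cast this
  have hcop : Nat.Coprime (2 ^ i) u := by
    apply Nat.Coprime.pow_left
    rw [Nat.coprime_two_left, Nat.odd_iff]
    exact hu.2
  have htot : ((2 ^ i * u).totient : ℝ) = (2 : ℝ) ^ i / 2 * u.totient := by
    rw [Nat.totient_mul hcop, Nat.totient_prime_pow Nat.prime_two (by have := (hF i hi).1; omega)]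
    obtain ⟨k, rfl⟩ : ∃ k, i = k + 1 := ⟨i - 1, by have := (hF i hi).1; omega⟩
    rw [Nat.add_sub_cancel]
    push_cast
    rw [pow_succ]
    ring
  rw [htot]
  push_cast
  field_simp
  ring

/-- **Positive measure of the unions.** -/
theorem measure_ge {G : ℕ → Prop} {K : ℕ → ℕ} (hK : ∀ i, 1 ≤ K i) {F : Finset ℕ}
    (hF : ∀ i ∈ F, 1 ≤ i ∧ G i) (hs : 32 ≤ ∑ i ∈ F, (i : ℝ) / K i) :
    (1 / 20 : ℝ) ≤ volume.real (⋃ y ∈ pts (den F), ballAt (fun n => dl G K n / 2) y) := by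
  apply union_ge' (fun n hn => den_pos hn)
  · intro n _
    have := dl_nonneg G K n
    linarith
  · intro n hn
    have h1 := dl_le (G := G) hK (den_pos hn)
    have h2 : (1 : ℝ) / n ≤ 1 := by
      rw [div_le_one (by exact_mod_cast den_pos hn)]
      exact_mod_cast den_pos hn
    linarith
  · rw [weight_den hK (fun i hi => (hF i hi).2), totient_den hK hF, mul_sum]
    apply sum_le_sum
    intro i _
    have h := totient_sum (2 ^ i)
    have hK0 : (0 : ℝ) ≤ 1 / (8 * (K i : ℝ)) := by positivity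
    have := mul_le_mul_of_nonneg_left h hK0
    linarith
  · rw [weight_den hK (fun i hi => (hF i hi).2)]
    have h1 : ∑ i ∈ F, 1 / (8 * (K i : ℝ)) * ((i : ℝ) / 4) ≤
        ∑ i ∈ F, 1 / (8 * (K i : ℝ)) * ∑ u ∈ odds (2 ^ i), (1 : ℝ) / u := by
      apply sum_le_sum
      intro i _
      exact mul_le_mul_of_nonneg_left (harm_ge i) (by positivity)
    refine le_trans ?_ h1
    have h2 : ∑ i ∈ F, 1 / (8 * (K i : ℝ)) * ((i : ℝ) / 4) = (∑ i ∈ F, (i : ℝ) / K i) / 32 := by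
      rw [sum_div]
      apply sum_congr rfl
      intro i _
      ring
    rw [h2]
    linarith

/-- Almost every point of the circle is well approximable. -/
theorem ae_wellApproximable {G : ℕ → Prop} {K : ℕ → ℕ} (hK : ∀ i, 1 ≤ K i)
    (hdiv : ∀ T : ℕ, ∃ F : Finset ℕ, (∀ i ∈ F, T ≤ i ∧ G i) ∧ 32 ≤ ∑ i ∈ F, (i : ℝ) / K i) :
    ∀ᵐ x : Circ, x ∈ addWellApproximable Circ (dl G K) := by
  rcases AddCircle.addWellApproximable_ae_empty_or_univ (T := (1 : ℝ)) (dl G K) (dl_tendsto hK)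
    with h | h
  swap
  · exact h
  exfalso
  set E : ℕ → Set Circ := fun T => ⋃ n, ⋃ (_ : 0 < n ∧ T ≤ n), approxAddOrderOf Circ n (dl G K n)
    with hE
  have hW : addWellApproximable Circ (dl G K) = ⋂ T, E T := by
    unfold addWellApproximable
    rw [blimsup_eq_iInf_biSup_of_nat]
    rfl
  have hmeas : ∀ T, MeasurableSet (E T) := by
    intro T
    apply MeasurableSet.iUnion
    intro n
    apply MeasurableSet.iUnion
    intro _
    exact isOpen_thickening.measurableSet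
  have hanti : Antitone E := by
    intro a b hab x hx
    simp only [hE, Set.mem_iUnion] at hx ⊢
    obtain ⟨n, ⟨h1, h2⟩, h3⟩ := hx
    exact ⟨n, ⟨h1, hab.trans h2⟩, h3⟩
  have hge : ∀ T, ENNReal.ofReal (1 / 20) ≤ volume (E T) := by
    intro T
    obtain ⟨F, hF, hs⟩ := hdiv (T + 1)
    have h1 := measure_ge hK (G := G) (F := F) (fun i hi => ⟨by have := (hF i hi).1; omega, (hF i hi).2⟩) hs
    have hsub : (⋃ y ∈ pts (den F), ballAt (fun n => dl G K n / 2) y) ⊆ E T := by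
      intro x hx
      simp only [Set.mem_iUnion] at hx
      obtain ⟨y, hy, hx⟩ := hx
      rw [mem_pts (fun n hn => den_pos hn)] at hy
      simp only [hE, Set.mem_iUnion]
      have hn := hy
      unfold den at hn
      rw [mem_image] at hn
      obtain ⟨⟨i, u⟩, h, hiu⟩ := hn
      rw [mem_sigma] at h
      simp only at h hiu
      have hu := h.2
      rw [mem_odds] at hu
      have hu0 : 0 < u := by omega
      refine ⟨addOrderOf y, ⟨den_pos hy, ?_⟩, ?_⟩
      · rw [← hiu]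
        have := (hF i h.1).1
        calc T ≤ i := by omega
          _ ≤ 2 ^ i := Nat.lt_two_pow_self.le
          _ ≤ 2 ^ i * u := Nat.le_mul_of_pos_right _ hu0
      · rw [mem_approx_add_orderOf_iff]
        refine ⟨y, rfl, ?_⟩
        unfold ballAt at hx
        rw [mem_closedBall] at hx
        rw [mem_ball]
        refine lt_of_le_of_lt hx ?_
        have hpos : 0 < dl G K (addOrderOf y) := by
          rw [← hiu, dl_den (hF i h.1).2 h.2]
          have := hK i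
          positivity
        linarith
    have h2 : (1 / 20 : ℝ) ≤ volume.real (E T) := h1.trans (measureReal_mono hsub (measure_ne_top _ _))
    rw [ENNReal.ofReal_le_iff_le_toReal (measure_ne_top _ _)]
    exact h2
  have hlim := tendsto_measure_iInter_atTop (μ := (volume : Measure Circ))
    (fun T => (hmeas T).nullMeasurableSet) hanti ⟨0, measure_ne_top _ _⟩
  have hpos : ENNReal.ofReal (1 / 20) ≤ volume (⋂ T, E T) :=
    ge_of_tendsto' hlim (fun T => hge T)
  rw [← hW] at hpos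
  have hzero : volume (addWellApproximable Circ (dl G K)) = 0 := by
    have := h
    rw [ae_iff] at this
    simpa using this
  rw [hzero] at hpos
  norm_num at hpos

/-- The same for real numbers. -/
theorem ae_real {G : ℕ → Prop} {K : ℕ → ℕ} (hK : ∀ i, 1 ≤ K i)
    (hdiv : ∀ T : ℕ, ∃ F : Finset ℕ, (∀ i ∈ F, T ≤ i ∧ G i) ∧ 32 ≤ ∑ i ∈ F, (i : ℝ) / K i) :
    ∀ᵐ x : ℝ, ∀ T : ℕ, ∃ i u : ℕ, ∃ a : ℤ, T ≤ i ∧ G i ∧ 0 < u ∧ u < 2 ^ i ∧
      4 * (u : ℝ) * K i * |((2 ^ i * u : ℕ) : ℝ) * x - a| < 1 := by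
  have h := ae_wellApproximable hK hdiv
  have h1 : ∀ᵐ x : ℝ, ((x : ℝ) : Circ) ∈ addWellApproximable Circ (dl G K) := by
    have hcov : ∀ k : ℤ, ∀ᵐ x ∂(volume.restrict (Set.Ioc (k : ℝ) (k + 1))),
        ((x : ℝ) : Circ) ∈ addWellApproximable Circ (dl G K) := by
      intro k
      exact (AddCircle.measurePreserving_mk (1 : ℝ) (k : ℝ)).quasiMeasurePreserving.ae h
    have huniv : (⋃ k : ℤ, Set.Ioc (k : ℝ) (k + 1)) = Set.univ := iUnion_Ioc_intCast ℝ
    rw [← Measure.restrict_univ (μ := (volume : Measure ℝ)), ← huniv, ae_restrict_iUnion_iff]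
    exact hcov
  filter_upwards [h1] with x hx T
  rw [UnitAddCircle.mem_addWellApproximable_iff] at hx
  obtain ⟨n, hn, hnT⟩ := hx.exists_gt (4 ^ T)
  simp only [Set.mem_ofPred_eq] at hn
  obtain ⟨m, hm, hgcd, hlt⟩ := hn
  have hn0 : 0 < n := by omega
  have hdl : 0 < dl G K n := lt_of_le_of_lt (norm_nonneg _) hlt
  have hcond : 0 < n ∧ uu n < 2 ^ vv n ∧ G (vv n) := by
    by_contra hc
    unfold dl at hdl
    rw [if_neg hc] at hdl
    exact lt_irrefl _ hdl
  have hprod := pow_vv_mul_uu n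
  have hval : dl G K n = 1 / (4 * (n : ℝ) * (uu n : ℝ) * (K (vv n) : ℝ)) := by
    unfold dl
    rw [if_pos hcond]
  have hvT : T ≤ vv n := by
    by_contra hc
    have : vv n < T := not_le.mp hc
    have h3 : n < 2 ^ vv n * 2 ^ vv n := by
      have h5 : 2 ^ vv n * uu n < 2 ^ vv n * 2 ^ vv n :=
        Nat.mul_lt_mul_of_pos_left hcond.2.1 (by positivity)
      omega
    have h4 : 2 ^ vv n * 2 ^ vv n ≤ 4 ^ T := by
      rw [← mul_pow]
      exact Nat.pow_le_pow_right (by norm_num) this.le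
    omega
  have hnr : (0 : ℝ) < n := by exact_mod_cast hn0
  have hu0 : (0 : ℝ) < uu n := by exact_mod_cast uu_pos hn0
  have hK0 : (0 : ℝ) < K (vv n) := by exact_mod_cast hK _
  refine ⟨vv n, uu n, round ((n : ℝ) * x), hvT, hcond.2.2, uu_pos hn0, hcond.2.1, ?_⟩
  rw [hprod]
  have e1 : ‖(((n : ℝ) * x : ℝ) : UnitAddCircle)‖ = |(n : ℝ) * x - round ((n : ℝ) * x)| :=
    UnitAddCircle.norm_eq
  have e2 : (((n : ℝ) * x : ℝ) : UnitAddCircle) = n • ((x : UnitAddCircle) - ((m : ℝ) / n : ℝ)) := by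
    have : (n : ℝ) * x = n • (x - (m : ℝ) / n) + m := by
      rw [nsmul_eq_mul]
      field_simp
      ring
    rw [this, AddCircle.coe_add, AddCircle.coe_nsmul, AddCircle.coe_sub]
    have hz : (((m : ℕ) : ℝ) : UnitAddCircle) = 0 := by
      rw [AddCircle.coe_eq_zero_iff]
      exact ⟨m, by simp⟩
    rw [hz, add_zero]
  rw [← e1, e2]
  have e3 : ‖n • ((x : UnitAddCircle) - ((m : ℝ) / n : ℝ))‖ ≤
      n * ‖(x : UnitAddCircle) - ((m : ℝ) / n : ℝ)‖ := by
    refine (norm_nsmul_le).trans ?_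
    simp
  have e4 : 4 * (uu n : ℝ) * K (vv n) * ((n : ℝ) * ‖(x : UnitAddCircle) - ((m : ℝ) / n : ℝ)‖) <
      4 * (uu n : ℝ) * K (vv n) * ((n : ℝ) * dl G K n) := by
    gcongr
  have e5 : 4 * (uu n : ℝ) * K (vv n) * ((n : ℝ) * dl G K n) = 1 := by
    rw [hval]
    field_simp
  calc _ ≤ 4 * (uu n : ℝ) * K (vv n) * ((n : ℝ) * ‖(x : UnitAddCircle) - ((m : ℝ) / n : ℝ)‖) := by
        gcongr
    _ < _ := e4
    _ = 1 := e5

end MK
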