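import Pool.Agent.Q71.MK.Torsion

/-!
# The second moment bound for the balls around the points of finite order
-/

namespace MK

open Finset MeasureTheory Metric

theorem vol_ball (x : Circ) {ε : ℝ} (h0 : 0 ≤ ε) (h1 : 2 * ε ≤ 1) :
    volume.real (closedBall x ε) = 2 * ε := by
  rw [Measure.real, AddCircle.volume_closedBall, min_eq_right h1, ENNReal.toReal_ofReal (by linarith)]

theorem vol_inter_le (x y : Circ) {a b : ℝ} (ha : 0 ≤ a) (hb : 0 ≤ b) (ha1 : 2 * a ≤ 1)
    (hb1 : 2 * b ≤ 1) :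
    volume.real (closedBall x a ∩ closedBall y b) ≤ if ‖x - y‖ ≤ a + b then 2 * min a b else 0 := by
  split_ifs with h
  · rcases le_total a b with hab | hab
    · rw [min_eq_left hab, ← vol_ball x ha ha1]
      exact measureReal_mono Set.inter_subset_left
    · rw [min_eq_right hab, ← vol_ball y hb hb1]
      exact measureReal_mono Set.inter_subset_right
  · have : closedBall x a ∩ closedBall y b = ∅ := by
      rw [← Set.disjoint_iff_inter_eq_empty]
      apply closedBall_disjoint_closedBall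
      rw [dist_eq_norm]
      exact not_le.mp h
    rw [this]
    simp

/-- The points of order in `S`. -/
noncomputable def pts (S : Finset ℕ) : Finset Circ := by
  classical exact S.biUnion ordSet

theorem mem_pts {S : Finset ℕ} (hS : ∀ n ∈ S, 0 < n) {x : Circ} : x ∈ pts S ↔ addOrderOf x ∈ S := by
  classical
  unfold pts
  rw [mem_biUnion]
  constructor
  · rintro ⟨n, hn, h⟩
    rw [mem_ordSet (hS n hn)] at h
    rwa [h]
  · intro h
    exact ⟨_, h, (mem_ordSet (hS _ h)).mpr rfl⟩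

theorem sum_pts {S : Finset ℕ} (hS : ∀ n ∈ S, 0 < n) (f : Circ → ℝ) :
    ∑ y ∈ pts S, f y = ∑ n ∈ S, ∑ y ∈ ordSet n, f y := by
  classical
  unfold pts
  rw [sum_biUnion]
  intro n hn m hm hnm
  rw [Function.onFun, disjoint_left]
  intro x hx hx'
  rw [mem_ordSet (hS n hn)] at hx
  rw [mem_ordSet (hS m hm)] at hx'
  exact hnm (hx.symm.trans hx')

/-- The ball around the point `y` of finite order. -/
def ballAt (r : ℕ → ℝ) (y : Circ) : Set Circ := closedBall y (r (addOrderOf y))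

theorem first_moment {S : Finset ℕ} (hS : ∀ n ∈ S, 0 < n) {r : ℕ → ℝ} (h0 : ∀ n ∈ S, 0 ≤ r n)
    (h1 : ∀ n ∈ S, 2 * r n ≤ 1) :
    ∑ y ∈ pts S, volume.real (ballAt r y) = ∑ n ∈ S, 2 * n.totient * r n := by
  rw [sum_pts hS]
  apply sum_congr rfl
  intro n hn
  have : ∀ y ∈ ordSet n, volume.real (ballAt r y) = 2 * r n := by
    intro y hy
    rw [mem_ordSet (hS n hn)] at hy
    rw [ballAt, hy]
    exact vol_ball y (h0 n hn) (h1 n hn)
  rw [sum_congr rfl this, sum_const, ordSet_card (hS n hn), nsmul_eq_mul]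
  ring

theorem min_mul_add_le {a b : ℝ} (ha : 0 ≤ a) (hb : 0 ≤ b) : min a b * (a + b) ≤ 2 * (a * b) := by
  rcases le_total a b with h | h
  · rw [min_eq_left h]; nlinarith
  · rw [min_eq_right h]; nlinarith

theorem off_diag {S : Finset ℕ} (hS : ∀ n ∈ S, 0 < n) {r : ℕ → ℝ} (h0 : ∀ n ∈ S, 0 ≤ r n)
    (h1 : ∀ n ∈ S, 2 * r n ≤ 1) {n m : ℕ} (hn : n ∈ S) (hm : m ∈ S) :
    ∑ y ∈ ordSet n, ∑ z ∈ ordSet m, (if y ≠ z then volume.real (ballAt r y ∩ ballAt r z) else 0) ≤
      8 * ((n * r n) * (m * r m)) := by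
  classical
  have hn0 := hS n hn
  have hm0 := hS m hm
  have a0 := h0 n hn
  have b0 := h0 m hm
  rw [← sum_product' (ordSet n) (ordSet m)
    (fun y z => if y ≠ z then volume.real (ballAt r y ∩ ballAt r z) else 0)]
  have hle : ∀ q ∈ (ordSet n) ×ˢ (ordSet m),
      (if q.1 ≠ q.2 then volume.real (ballAt r q.1 ∩ ballAt r q.2) else 0) ≤
      if (q.1 ≠ q.2 ∧ ‖q.1 - q.2‖ ≤ r n + r m) then 2 * min (r n) (r m) else 0 := by
    intro q hq
    rw [mem_product, mem_ordSet hn0, mem_ordSet hm0] at hq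
    have := vol_inter_le q.1 q.2 a0 b0 (h1 n hn) (h1 m hm)
    by_cases hne : q.1 ≠ q.2
    · rw [if_pos hne, ballAt, ballAt, hq.1, hq.2]
      refine this.trans (le_of_eq ?_)
      simp only [hne, ne_eq, not_false_eq_true, true_and]
    · rw [if_neg hne, if_neg (fun h => hne h.1)]
  refine (sum_le_sum hle).trans ?_
  rw [← sum_filter, sum_const, nsmul_eq_mul]
  have hc := pair_card hn0 hm0 (ρ := r n + r m) (by linarith)
  have hmin : 0 ≤ 2 * min (r n) (r m) := by
    have := le_min a0 b0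
    linarith
  calc _ ≤ (2 * (r n + r m) * n * m) * (2 * min (r n) (r m)) :=
        mul_le_mul_of_nonneg_right hc hmin
    _ = 4 * ((n : ℝ) * m) * (min (r n) (r m) * (r n + r m)) := by ring
    _ ≤ 4 * ((n : ℝ) * m) * (2 * (r n * r m)) := by
        apply mul_le_mul_of_nonneg_left (min_mul_add_le a0 b0)
        positivity
    _ = 8 * ((n * r n) * (m * r m)) := by ring

theorem second_moment {S : Finset ℕ} (hS : ∀ n ∈ S, 0 < n) {r : ℕ → ℝ} (h0 : ∀ n ∈ S, 0 ≤ r n)
    (h1 : ∀ n ∈ S, 2 * r n ≤ 1) :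
    ∑ y ∈ pts S, ∑ z ∈ pts S, volume.real (ballAt r y ∩ ballAt r z) ≤
      (∑ n ∈ S, 2 * n.totient * r n) + 8 * (∑ n ∈ S, n * r n) ^ 2 := by
  classical
  have e1 : ∀ y ∈ pts S, ∑ z ∈ pts S, volume.real (ballAt r y ∩ ballAt r z) =
      volume.real (ballAt r y) +
        ∑ z ∈ pts S, (if y ≠ z then volume.real (ballAt r y ∩ ballAt r z) else 0) := by
    intro y hy
    have : ∀ z ∈ pts S, volume.real (ballAt r y ∩ ballAt r z) =
        (if y = z then volume.real (ballAt r y) else 0) +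
        (if y ≠ z then volume.real (ballAt r y ∩ ballAt r z) else 0) := by
      intro z _
      by_cases h : y = z
      · subst h; simp
      · simp [h]
    rw [sum_congr rfl this, sum_add_distrib]
    congr 1
    rw [sum_ite_eq]
    simp [hy]
  rw [sum_congr rfl e1, sum_add_distrib, first_moment hS h0 h1]
  have e2 : ∑ y ∈ pts S, ∑ z ∈ pts S, (if y ≠ z then volume.real (ballAt r y ∩ ballAt r z) else 0)
      = ∑ n ∈ S, ∑ m ∈ S, ∑ y ∈ ordSet n, ∑ z ∈ ordSet m,
        (if y ≠ z then volume.real (ballAt r y ∩ ballAt r z) else 0) := by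
    rw [sum_pts hS]
    apply sum_congr rfl
    intro n _
    have : ∀ y ∈ ordSet n, ∑ z ∈ pts S,
        (if y ≠ z then volume.real (ballAt r y ∩ ballAt r z) else 0) =
        ∑ m ∈ S, ∑ z ∈ ordSet m, (if y ≠ z then volume.real (ballAt r y ∩ ballAt r z) else 0) := by
      intro y _
      rw [sum_pts hS]
    rw [sum_congr rfl this, sum_comm]
  rw [e2]
  have e3 : ∑ n ∈ S, ∑ m ∈ S, ∑ y ∈ ordSet n, ∑ z ∈ ordSet m,
        (if y ≠ z then volume.real (ballAt r y ∩ ballAt r z) else 0) ≤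
      ∑ n ∈ S, ∑ m ∈ S, 8 * ((n * r n) * (m * r m)) :=
    sum_le_sum fun n hn => sum_le_sum fun m hm => off_diag hS h0 h1 hn hm
  have e4 : ∑ n ∈ S, ∑ m ∈ S, 8 * ((n * r n) * (m * r m)) = 8 * (∑ n ∈ S, n * r n) ^ 2 := by
    rw [sq, sum_mul_sum, mul_sum]
    apply sum_congr rfl
    intro n _
    rw [mul_sum]
  linarith

/-- **The second moment method.** -/
theorem union_ge {S : Finset ℕ} (hS : ∀ n ∈ S, 0 < n) {r : ℕ → ℝ} (h0 : ∀ n ∈ S, 0 ≤ r n)
    (h1 : ∀ n ∈ S, 2 * r n ≤ 1) {l : ℝ} :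
    2 * l * (∑ n ∈ S, 2 * n.totient * r n) -
      l ^ 2 * ((∑ n ∈ S, 2 * n.totient * r n) + 8 * (∑ n ∈ S, n * r n) ^ 2) ≤
    volume.real (⋃ y ∈ pts S, ballAt r y) := by
  classical
  have hB : ∀ y, MeasurableSet (ballAt r y) := fun y => measurableSet_closedBall
  set F : Circ → ℝ := fun x => ∑ y ∈ pts S, (ballAt r y).indicator (fun _ => (1 : ℝ)) x with hF
  have hint : ∀ A : Set Circ, MeasurableSet A → Integrable (A.indicator (fun _ => (1 : ℝ))) volume :=
    fun A hA => (integrable_const (1 : ℝ)).indicator hA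
  have hF1 : ∫ x, F x = ∑ y ∈ pts S, volume.real (ballAt r y) := by
    rw [hF, integral_finsetSum _ (fun y _ => hint _ (hB y))]
    apply sum_congr rfl
    intro y _
    rw [integral_indicator_const _ (hB y)]
    simp
  have hFsq : ∀ x, F x ^ 2 = ∑ y ∈ pts S, ∑ z ∈ pts S,
      (ballAt r y ∩ ballAt r z).indicator (fun _ => (1 : ℝ)) x := by
    intro x
    rw [sq, hF]
    simp only
    rw [sum_mul_sum]
    apply sum_congr rfl
    intro y _
    apply sum_congr rfl
    intro z _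
    by_cases hy : x ∈ ballAt r y <;> by_cases hz : x ∈ ballAt r z <;> simp [hy, hz]
  have hF2 : ∫ x, F x ^ 2 = ∑ y ∈ pts S, ∑ z ∈ pts S, volume.real (ballAt r y ∩ ballAt r z) := by
    simp_rw [hFsq]
    rw [integral_finsetSum _ (fun y _ => integrable_finsetSum _
      (fun z _ => hint _ ((hB y).inter (hB z))))]
    apply sum_congr rfl
    intro y _
    rw [integral_finsetSum _ (fun z _ => hint _ ((hB y).inter (hB z)))]
    apply sum_congr rfl
    intro z _
    rw [integral_indicator_const _ ((hB y).inter (hB z))]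
    simp
  have hFi : Integrable F volume := integrable_finsetSum _ (fun y _ => hint _ (hB y))
  have hFi2 : Integrable (fun x => F x ^ 2) volume := by
    simp_rw [hFsq]
    exact integrable_finsetSum _ (fun y _ => integrable_finsetSum _
      (fun z _ => hint _ ((hB y).inter (hB z))))
  have hU : MeasurableSet (⋃ y ∈ pts S, ballAt r y) :=
    Finset.measurableSet_biUnion _ (fun y _ => hB y)
  have hpt : ∀ x, 2 * l * F x - l ^ 2 * F x ^ 2 ≤
      (⋃ y ∈ pts S, ballAt r y).indicator (fun _ => (1 : ℝ)) x := by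
    intro x
    by_cases hx : x ∈ ⋃ y ∈ pts S, ballAt r y
    · rw [Set.indicator_of_mem hx]
      nlinarith [sq_nonneg (1 - l * F x)]
    · rw [Set.indicator_of_notMem hx]
      have : F x = 0 := by
        rw [hF]
        apply sum_eq_zero
        intro y hy
        rw [Set.indicator_of_notMem]
        intro h
        apply hx
        simp only [Set.mem_iUnion]
        exact ⟨y, hy, h⟩
      rw [this]; simp
  have hI := integral_mono ((hFi.const_mul (2 * l)).sub (hFi2.const_mul (l ^ 2))) (hint _ hU) hpt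
  rw [integral_indicator_const _ hU] at hI
  simp only [smul_eq_mul, mul_one] at hI
  have hI2 : ∫ x, (2 * l * F x - l ^ 2 * F x ^ 2) = 2 * l * (∫ x, F x) - l ^ 2 * ∫ x, F x ^ 2 := by
    rw [integral_sub (hFi.const_mul _) (hFi2.const_mul _), integral_const_mul, integral_const_mul]
  have hI3 : 2 * l * (∫ x, F x) - l ^ 2 * ∫ x, F x ^ 2 ≤
      volume.real (⋃ y ∈ pts S, ballAt r y) := by
    rw [← hI2]
    exact hI
  have h2 := second_moment hS h0 h1
  rw [hF1, hF2, first_moment hS h0 h1] at hI3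
  have h3 : l ^ 2 * (∑ y ∈ pts S, ∑ z ∈ pts S, volume.real (ballAt r y ∩ ballAt r z)) ≤
      l ^ 2 * ((∑ n ∈ S, 2 * n.totient * r n) + 8 * (∑ n ∈ S, n * r n) ^ 2) :=
    mul_le_mul_of_nonneg_left h2 (sq_nonneg l)
  linarith

/-- A convenient form: if the coprime part carries a fixed proportion and the total weight is at
least one, the union has measure at least `1 / 20`. -/
theorem union_ge' {S : Finset ℕ} (hS : ∀ n ∈ S, 0 < n) {r : ℕ → ℝ} (h0 : ∀ n ∈ S, 0 ≤ r n)
    (h1 : ∀ n ∈ S, 2 * r n ≤ 1)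
    (h2 : (3 / 4 : ℝ) * (∑ n ∈ S, n * r n) ≤ ∑ n ∈ S, 2 * n.totient * r n)
    (h3 : 1 ≤ ∑ n ∈ S, (n : ℝ) * r n) :
    (1 / 20 : ℝ) ≤ volume.real (⋃ y ∈ pts S, ballAt r y) := by
  set s := ∑ n ∈ S, (n : ℝ) * r n with hs
  set M := ∑ n ∈ S, 2 * (n.totient : ℝ) * r n with hM
  have hM2 : M ≤ 2 * s := by
    rw [hM, hs, mul_sum]
    apply sum_le_sum
    intro n hn
    have a1 : (n.totient : ℝ) ≤ n := by exact_mod_cast Nat.totient_le n
    have a2 := h0 n hn
    nlinarith [mul_le_mul_of_nonneg_right a1 a2]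
  have hu := union_ge hS h0 h1 (l := (3 / 40) / s)
  rw [← hs, ← hM] at hu
  refine le_trans ?_ hu
  have hs0 : 0 < s := by linarith
  have e1 : 2 * ((3 / 40) / s) * M - ((3 / 40) / s) ^ 2 * (M + 8 * s ^ 2) =
      (3 / 20) * (M / s) - (9 / 1600) * (M / s) / s - 9 / 200 := by
    field_simp
    ring
  rw [e1]
  have hq1 : 3 / 4 ≤ M / s := by
    rw [le_div_iff₀ hs0]
    exact h2
  have hq2 : (M / s) / s ≤ M / s := by
    apply div_le_self
    · linarith
    · exact h3
  have e2 : (9 / 1600) * (M / s) / s = (9 / 1600) * ((M / s) / s) := by ring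
  rw [e2]
  linarith

end MK
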