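import Mathlib

/-!
# Pairs of close points of given orders on the circle

`MK.pair_card`: the number of pairs `(y, z)` of distinct points of the circle of orders `n` and `m`
with `‖y - z‖ ≤ ρ` is at most `2 ρ n m`.
-/

namespace MK

open Finset

/-- The circle of length one. -/
abbrev Circ := AddCircle (1 : ℝ)

/-- The finite set of the points of order `n`. -/
noncomputable def ordSet (n : ℕ) : Finset Circ :=
  if h : 0 < n then (AddCircle.finite_setOfPred_addOrderOf_eq (p := (1 : ℝ)) h).toFinset else ∅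

theorem mem_ordSet {n : ℕ} (hn : 0 < n) {x : Circ} : x ∈ ordSet n ↔ addOrderOf x = n := by
  unfold ordSet
  rw [dif_pos hn]
  simp

theorem ordSet_card {n : ℕ} (hn : 0 < n) : (ordSet n).card = n.totient := by
  have h1 : (ordSet n).card = Nat.card {u : Circ // addOrderOf u = n} := by
    have h2 : ({u : Circ | addOrderOf u = n} : Set Circ) = (ordSet n : Set Circ) := by
      ext x
      simp [mem_ordSet hn]
    rw [← Set.ncard_coe_finset, ← h2]
    rfl
  rw [h1]
  exact AddCircle.card_addOrderOf_eq_totient (1 : ℝ)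

/-- The finite set of the points `x` with `g • x = 0`. -/
noncomputable def torSet (g : ℕ) : Finset Circ :=
  if h : 0 < g then (AddCircle.finite_torsion (p := (1 : ℝ)) h).toFinset else ∅

theorem mem_torSet {g : ℕ} (hg : 0 < g) {x : Circ} : x ∈ torSet g ↔ g • x = 0 := by
  unfold torSet
  rw [dif_pos hg]
  simp

theorem torSet_card {g : ℕ} (hg : 0 < g) : (torSet g).card ≤ g := by
  have h := AddCircle.card_torsion_le_of_isSMulRegular (1 : ℝ) g hg.ne'
    (.of_right_eq_zero_of_smul fun _ ↦ by simp [hg.ne'])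
  have h2 : ({x : Circ | g • x = 0} : Set Circ) = (torSet g : Set Circ) := by
    ext x
    simp [mem_torSet hg]
  rw [h2, Set.encard_coe_eq_coe_finsetCard] at h
  exact_mod_cast h

/-- Nonzero points of order dividing `L` close to `0`. -/
theorem near_card {L : ℕ} (hL : 0 < L) {ρ : ℝ} (hρ : 0 ≤ ρ) :
    (((torSet L).filter (fun x => x ≠ 0 ∧ ‖x‖ ≤ ρ)).card : ℝ) ≤ 2 * ρ * L := by
  classical
  set k := ⌊ρ * L⌋₊ with hk
  have hsub : (torSet L).filter (fun x => x ≠ 0 ∧ ‖x‖ ≤ ρ) ⊆
      (Icc 1 k).image (fun j : ℕ => (((j : ℝ) / L : ℝ) : Circ)) ∪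
      (Icc 1 k).image (fun j : ℕ => ((((L - j : ℕ) : ℝ) / L : ℝ) : Circ)) := by
    intro x hx
    rw [mem_filter, mem_torSet hL] at hx
    obtain ⟨h1, h2, h3⟩ := hx
    rw [AddCircle.nsmul_eq_zero_iff hL] at h1
    obtain ⟨m, hm, rfl⟩ := h1
    rw [AddCircle.norm_div_natCast] at h3
    have hLr : (0 : ℝ) < L := by exact_mod_cast hL
    rw [Nat.mod_eq_of_lt hm, one_mul, div_le_iff₀ hLr] at h3
    have h4 : min m (L - m) ≤ k := by
      rw [hk]
      exact Nat.le_floor h3
    have hm0 : 0 < m := by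
      rcases Nat.eq_zero_or_pos m with h | h
      · exfalso; apply h2; simp [h]
      · exact h
    rw [mem_union, mem_image, mem_image]
    rcases le_total m (L - m) with h | h
    · left
      rw [min_eq_left h] at h4
      exact ⟨m, mem_Icc.mpr ⟨hm0, h4⟩, by simp⟩
    · right
      rw [min_eq_right h] at h4
      refine ⟨L - m, mem_Icc.mpr ⟨by omega, h4⟩, ?_⟩
      have : L - (L - m) = m := by omega
      simp [this]
  have h1 := card_le_card hsub
  have h2 := h1.trans (card_union_le _ _)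
  have h3 : ((Icc 1 k).image (fun j : ℕ => (((j : ℝ) / L : ℝ) : Circ))).card ≤ k := by
    refine card_image_le.trans ?_
    simp
  have h4 : ((Icc 1 k).image (fun j : ℕ => ((((L - j : ℕ) : ℝ) / L : ℝ) : Circ))).card ≤ k := by
    refine card_image_le.trans ?_
    simp
  have h5 : ((torSet L).filter (fun x => x ≠ 0 ∧ ‖x‖ ≤ ρ)).card ≤ 2 * k := by omega
  have h6 : (k : ℝ) ≤ ρ * L := by
    rw [hk]
    exact Nat.floor_le (by positivity)
  have h7 : (((torSet L).filter (fun x => x ≠ 0 ∧ ‖x‖ ≤ ρ)).card : ℝ) ≤ 2 * k := by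
    exact_mod_cast h5
  linarith

/-- **Pairs of close points.** -/
theorem pair_card {n m : ℕ} (hn : 0 < n) (hm : 0 < m) {ρ : ℝ} (hρ : 0 ≤ ρ) :
    ((((ordSet n) ×ˢ (ordSet m)).filter (fun q : Circ × Circ => q.1 ≠ q.2 ∧ ‖q.1 - q.2‖ ≤ ρ)).card : ℝ)
      ≤ 2 * ρ * n * m := by
  classical
  set s := ((ordSet n) ×ˢ (ordSet m)).filter (fun q : Circ × Circ => q.1 ≠ q.2 ∧ ‖q.1 - q.2‖ ≤ ρ)
    with hs
  set L := n.lcm m with hLd
  set g := n.gcd m with hgd
  have hL : 0 < L := Nat.lcm_pos hn hm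
  have hg : 0 < g := Nat.gcd_pos_of_pos_left _ hn
  set t := (torSet L).filter (fun x => x ≠ 0 ∧ ‖x‖ ≤ ρ) with ht
  have hmaps : ∀ q ∈ s, q.1 - q.2 ∈ t := by
    intro q hq
    rw [hs, mem_filter, mem_product, mem_ordSet hn, mem_ordSet hm] at hq
    obtain ⟨⟨h1, h2⟩, h3, h4⟩ := hq
    rw [ht, mem_filter, mem_torSet hL]
    refine ⟨?_, sub_ne_zero.mpr h3, h4⟩
    rw [nsmul_sub]
    have e1 : L • q.1 = 0 := by
      apply addOrderOf_dvd_iff_nsmul_eq_zero.mp
      rw [h1]; exact Nat.dvd_lcm_left _ _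
    have e2 : L • q.2 = 0 := by
      apply addOrderOf_dvd_iff_nsmul_eq_zero.mp
      rw [h2]; exact Nat.dvd_lcm_right _ _
    rw [e1, e2, sub_zero]
  have hfib : ∀ b ∈ t, (s.filter (fun q => q.1 - q.2 = b)).card ≤ g := by
    intro b hb
    rcases (s.filter (fun q => q.1 - q.2 = b)).eq_empty_or_nonempty with he | ⟨q0, hq0⟩
    · rw [he]; simp
    · refine le_trans ?_ (torSet_card hg)
      apply card_le_card_of_injOn (fun q => q.1 - q0.1)
      · intro q hq
        have hq' := hq
        rw [mem_coe, mem_filter, hs, mem_filter, mem_product, mem_ordSet hn, mem_ordSet hm] at hq'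
        rw [mem_filter, hs, mem_filter, mem_product, mem_ordSet hn, mem_ordSet hm] at hq0
        obtain ⟨⟨⟨h1, h2⟩, _⟩, h3⟩ := hq'
        obtain ⟨⟨⟨k1, k2⟩, _⟩, k3⟩ := hq0
        rw [mem_coe, mem_torSet hg]
        have e1 : n • (q.1 - q0.1) = 0 := by
          rw [nsmul_sub]
          have a1 : n • q.1 = 0 := by rw [← h1]; exact addOrderOf_nsmul_eq_zero _
          have a2 : n • q0.1 = 0 := by rw [← k1]; exact addOrderOf_nsmul_eq_zero _
          rw [a1, a2, sub_zero]
        have e2 : m • (q.1 - q0.1) = 0 := by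
          have : q.1 - q0.1 = q.2 - q0.2 := by
            have := h3.trans k3.symm
            rw [sub_eq_sub_iff_add_eq_add] at this ⊢
            rw [this]; abel
          rw [this, nsmul_sub]
          have a1 : m • q.2 = 0 := by rw [← h2]; exact addOrderOf_nsmul_eq_zero _
          have a2 : m • q0.2 = 0 := by rw [← k2]; exact addOrderOf_nsmul_eq_zero _
          rw [a1, a2, sub_zero]
        apply addOrderOf_dvd_iff_nsmul_eq_zero.mp
        rw [hgd]
        exact Nat.dvd_gcd (addOrderOf_dvd_iff_nsmul_eq_zero.mpr e1)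
          (addOrderOf_dvd_iff_nsmul_eq_zero.mpr e2)
      · intro q hq q' hq' heq
        rw [mem_coe, mem_filter] at hq hq'
        have h1 : q.1 = q'.1 := by simpa using heq
        have h2 : q.2 = q'.2 := by
          have := hq.2.trans hq'.2.symm
          rw [h1] at this
          simpa using this
        exact Prod.ext h1 h2
  have hcard := card_le_mul_card_image_of_maps_to hmaps g hfib
  have h1 : (s.card : ℝ) ≤ g * t.card := by exact_mod_cast hcard
  have h2 : (t.card : ℝ) ≤ 2 * ρ * L := near_card hL hρ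
  have h3 : (g : ℝ) * L = n * m := by
    rw [hgd, hLd]
    exact_mod_cast Nat.gcd_mul_lcm n m
  have hg0 : (0 : ℝ) ≤ g := Nat.cast_nonneg _
  calc (s.card : ℝ) ≤ g * t.card := h1
    _ ≤ g * (2 * ρ * L) := by gcongr
    _ = 2 * ρ * (g * L) := by ring
    _ = 2 * ρ * n * m := by rw [h3]; ring

end MK
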